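import Mathlib
import Pool.Agent.Q161.NI.Fin

/-!
# The numerical index of an ultrapower can be smaller than the numerical index of the space

For `𝕜 = ℝ` and for `𝕜 = ℂ` there is a Banach space `X` with `25 / 36 ≤ n(X)` whose ultrapowers along
all free ultrafilters on `ℕ` have numerical index at most `2 / 3`.  There is a real Banach space `X`
with `1 / 2 ≤ n(X)` whose ultrapowers along all free ultrafilters have numerical index `0`.

The space consists of the summable sequences `a = (a_i)` in the plane `𝕜²`, with the norm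
`sup_j (|a_j|_1 + ∑_{i ≠ j} e(a_i))`, `e` a norm on the plane.  The ultrapower is the sum of an atomic
part and a diffuse part, and the diffuse part only feels the fibre norm `e`, while the numerical index
of `X` is governed by the `ℓ₁` norm of the plane.
-/

set_option autoImplicit false

open Filter Topology
open scoped ENNReal

namespace Pool.Agent.Results.MP_6da9ed_an.UltrapowerIndexDrops

open Pool.Agent.Q161.NI

section hex

variable (𝕜 : Type) [RCLike 𝕜]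

/-- the norm `max (|p| + 2/3 |q|, 2/3 |p| + |q|)` on the plane -/
noncomputable def hexNorm (u : 𝕜 × 𝕜) : ℝ := max (‖u.1‖ + 2 / 3 * ‖u.2‖) (2 / 3 * ‖u.1‖ + ‖u.2‖)

noncomputable def hexFib : Fib 𝕜 where
  e := hexNorm 𝕜
  ρ := 6 / 5
  add u v := by
    unfold hexNorm
    have h1 : ‖(u + v).1‖ ≤ ‖u.1‖ + ‖v.1‖ := norm_add_le _ _
    have h2 : ‖(u + v).2‖ ≤ ‖u.2‖ + ‖v.2‖ := norm_add_le _ _
    have a1 := le_max_left (‖u.1‖ + 2 / 3 * ‖u.2‖) (2 / 3 * ‖u.1‖ + ‖u.2‖)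
    have a2 := le_max_right (‖u.1‖ + 2 / 3 * ‖u.2‖) (2 / 3 * ‖u.1‖ + ‖u.2‖)
    have a3 := le_max_left (‖v.1‖ + 2 / 3 * ‖v.2‖) (2 / 3 * ‖v.1‖ + ‖v.2‖)
    have a4 := le_max_right (‖v.1‖ + 2 / 3 * ‖v.2‖) (2 / 3 * ‖v.1‖ + ‖v.2‖)
    refine max_le ?_ ?_ <;> linarith
  smul c u := by
    unfold hexNorm
    rw [mul_max_of_nonneg _ _ (norm_nonneg c)]
    simp only [Prod.smul_fst, Prod.smul_snd, smul_eq_mul, norm_mul]
    congr 1 <;> ring
  le u := by
    unfold hexNorm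
    have h1 := norm_nonneg u.1
    have h2 := norm_nonneg u.2
    refine max_le ?_ ?_ <;> linarith
  ge u := by
    unfold hexNorm
    have a1 := le_max_left (‖u.1‖ + 2 / 3 * ‖u.2‖) (2 / 3 * ‖u.1‖ + ‖u.2‖)
    have a2 := le_max_right (‖u.1‖ + 2 / 3 * ‖u.2‖) (2 / 3 * ‖u.1‖ + ‖u.2‖)
    linarith
  norming u := by
    obtain ⟨θ, hθ, hθz⟩ := exists_phase u.1
    obtain ⟨σ, hσ, hσz⟩ := exists_phase u.2
    have hk : ‖((2 / 3 : ℝ) : 𝕜)‖ = 2 / 3 := by
      rw [RCLike.norm_ofReal, abs_of_pos (by norm_num)]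
    rcases le_total ‖u.2‖ ‖u.1‖ with h | h
    · refine ⟨θ, ((2 / 3 : ℝ) : 𝕜) * σ, ?_, fun v => ?_⟩
      · have h1 : hexNorm 𝕜 u = ‖u.1‖ + 2 / 3 * ‖u.2‖ := max_eq_left (by linarith)
        rw [h1, hθz, mul_assoc, hσz, RCLike.ofReal_add, RCLike.ofReal_mul]
      · refine (norm_add_le _ _).trans ?_
        rw [norm_mul, norm_mul, norm_mul, hθ, hσ, hk]
        refine le_trans (le_of_eq ?_) (le_max_left _ _)
        ring
    · refine ⟨((2 / 3 : ℝ) : 𝕜) * θ, σ, ?_, fun v => ?_⟩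
      · have h1 : hexNorm 𝕜 u = 2 / 3 * ‖u.1‖ + ‖u.2‖ := max_eq_right (by linarith)
        rw [h1, hσz, mul_assoc, hθz, RCLike.ofReal_add, RCLike.ofReal_mul]
      · refine (norm_add_le _ _).trans ?_
        rw [norm_mul, norm_mul, norm_mul, hθ, hσ, hk]
        refine le_trans (le_of_eq ?_) (le_max_right _ _)
        ring

noncomputable def hexOp : FibOp (hexFib 𝕜) where
  m := LinearMap.prod (LinearMap.snd 𝕜 𝕜 𝕜) 0
  c := 2 / 3
  δ := 1
  hc := by norm_num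
  hδ := one_pos
  growth u t ht := by
    change hexNorm 𝕜 (u + t • ((u.2, 0) : 𝕜 × 𝕜)) ≤ (1 + 2 / 3 * ‖t‖) * hexNorm 𝕜 u
    have h1 : ‖(u + t • ((u.2, 0) : 𝕜 × 𝕜)).1‖ ≤ ‖u.1‖ + ‖t‖ * ‖u.2‖ := by
      refine (norm_add_le _ _).trans ?_
      rw [Prod.smul_fst, smul_eq_mul, norm_mul]
    have h2 : ‖(u + t • ((u.2, 0) : 𝕜 × 𝕜)).2‖ = ‖u.2‖ := by simp
    unfold hexNorm
    rw [h2]
    have a1 := le_max_left (‖u.1‖ + 2 / 3 * ‖u.2‖) (2 / 3 * ‖u.1‖ + ‖u.2‖)
    have a2 := le_max_right (‖u.1‖ + 2 / 3 * ‖u.2‖) (2 / 3 * ‖u.1‖ + ‖u.2‖)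
    set e := max (‖u.1‖ + 2 / 3 * ‖u.2‖) (2 / 3 * ‖u.1‖ + ‖u.2‖) with he
    have hp := norm_nonneg u.1
    have hq := norm_nonneg u.2
    have htn := norm_nonneg t
    have hqe : ‖u.2‖ ≤ e := by linarith
    refine max_le ?_ ?_
    · rcases le_total ‖u.2‖ ‖u.1‖ with h | h
      · have h3 : 5 / 3 * ‖u.2‖ ≤ e := by linarith
        have h4 : ‖t‖ * (5 / 3 * ‖u.2‖) ≤ ‖t‖ * e := mul_le_mul_of_nonneg_left h3 htn
        have h5 := mul_nonneg htn hq
        linarith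
      · have h3 : ‖t‖ * (2 / 3 * ‖u.1‖ + ‖u.2‖) ≤ ‖t‖ * e := mul_le_mul_of_nonneg_left a2 htn
        have h4 : 0 ≤ (1 - ‖t‖) * (‖u.2‖ - ‖u.1‖) := mul_nonneg (by linarith) (by linarith)
        have h5 := mul_nonneg htn hp
        linarith
    · have h3 : ‖t‖ * ‖u.2‖ ≤ ‖t‖ * e := mul_le_mul_of_nonneg_left hqe htn
      linarith
  contr u := by
    unfold f1
    simp
  u0 := by
    change hexNorm 𝕜 ((0, 1) : 𝕜 × 𝕜) = 1
    unfold hexNorm
    simp only [norm_zero, norm_one]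
    norm_num
  m0 := by
    change hexNorm 𝕜 ((1, 0) : 𝕜 × 𝕜) = 1
    unfold hexNorm
    simp only [norm_zero, norm_one]
    norm_num
  m1 := by
    unfold f1
    simp

end hex

section eucl

/-- the Euclidean norm of the real plane -/
noncomputable def euNorm (u : ℝ × ℝ) : ℝ := √(u.1 ^ 2 + u.2 ^ 2)

theorem euNorm_sq (u : ℝ × ℝ) : euNorm u ^ 2 = u.1 ^ 2 + u.2 ^ 2 := Real.sq_sqrt (by positivity)

theorem euNorm_nonneg (u : ℝ × ℝ) : 0 ≤ euNorm u := Real.sqrt_nonneg _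

theorem cs (u v : ℝ × ℝ) : u.1 * v.1 + u.2 * v.2 ≤ euNorm u * euNorm v := by
  have h : (u.1 * v.1 + u.2 * v.2) ^ 2 ≤ (euNorm u * euNorm v) ^ 2 := by
    rw [mul_pow, euNorm_sq, euNorm_sq]
    nlinarith [sq_nonneg (u.1 * v.2 - u.2 * v.1)]
  exact (abs_le_of_sq_le_sq' h (mul_nonneg (euNorm_nonneg u) (euNorm_nonneg v))).2

theorem cs' (u v : ℝ × ℝ) : |u.1 * v.1 + u.2 * v.2| ≤ euNorm u * euNorm v := by
  have h : (u.1 * v.1 + u.2 * v.2) ^ 2 ≤ (euNorm u * euNorm v) ^ 2 := by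
    rw [mul_pow, euNorm_sq, euNorm_sq]
    nlinarith [sq_nonneg (u.1 * v.2 - u.2 * v.1)]
  exact abs_le.2 (abs_le_of_sq_le_sq' h (mul_nonneg (euNorm_nonneg u) (euNorm_nonneg v)))

noncomputable def euFib : Fib ℝ where
  e := euNorm
  ρ := √2
  add u v := by
    have h : euNorm (u + v) ^ 2 ≤ (euNorm u + euNorm v) ^ 2 := by
      have h1 := cs u v
      rw [euNorm_sq, add_sq, euNorm_sq, euNorm_sq, Prod.fst_add, Prod.snd_add]
      nlinarith
    exact (abs_le_of_sq_le_sq' h (add_nonneg (euNorm_nonneg u) (euNorm_nonneg v))).2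
  smul c u := by
    unfold euNorm
    simp only [Prod.smul_fst, Prod.smul_snd, smul_eq_mul]
    rw [← Real.sqrt_sq (norm_nonneg c), ← Real.sqrt_mul (by positivity)]
    congr 1
    rw [Real.norm_eq_abs, sq_abs]
    ring
  le u := by
    unfold euNorm
    rw [Real.sqrt_le_left (by positivity)]
    rw [Real.norm_eq_abs, Real.norm_eq_abs]
    nlinarith [sq_abs u.1, sq_abs u.2, mul_nonneg (abs_nonneg u.1) (abs_nonneg u.2)]
  ge u := by
    unfold euNorm
    rw [← Real.sqrt_mul (by norm_num)]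
    apply Real.le_sqrt_of_sq_le
    rw [Real.norm_eq_abs, Real.norm_eq_abs]
    nlinarith [sq_abs u.1, sq_abs u.2, sq_nonneg (|u.1| - |u.2|)]
  norming u := by
    by_cases h0 : euNorm u = 0
    · refine ⟨0, 0, ?_, fun v => ?_⟩
      · rw [h0]; simp
      · simp only [zero_mul, add_zero, norm_zero]
        exact euNorm_nonneg v
    · have hpos : 0 < euNorm u := lt_of_le_of_ne (euNorm_nonneg u) (Ne.symm h0)
      refine ⟨u.1 / euNorm u, u.2 / euNorm u, ?_, fun v => ?_⟩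
      · rw [RCLike.ofReal_real_eq_id, id]
        field_simp
        rw [euNorm_sq]
      · have h1 : u.1 / euNorm u * v.1 + u.2 / euNorm u * v.2 =
            (u.1 * v.1 + u.2 * v.2) / euNorm u := by ring
        rw [h1, norm_div, Real.norm_eq_abs, Real.norm_eq_abs, abs_of_pos hpos, div_le_iff₀ hpos,
          mul_comm (euNorm v)]
        exact cs' u v

noncomputable def euOp (c : ℝ) (hc : 0 < c) : FibOp euFib where
  m := LinearMap.prod (-LinearMap.snd ℝ ℝ ℝ) (LinearMap.fst ℝ ℝ ℝ)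
  c := c
  δ := c
  hc := hc.le
  hδ := hc
  growth u t ht := by
    change euNorm (u + t • ((-u.2, u.1) : ℝ × ℝ)) ≤ (1 + c * ‖t‖) * euNorm u
    have h : euNorm (u + t • ((-u.2, u.1) : ℝ × ℝ)) ^ 2 ≤ ((1 + c * ‖t‖) * euNorm u) ^ 2 := by
      rw [mul_pow, euNorm_sq, euNorm_sq]
      simp only [Prod.fst_add, Prod.snd_add, Prod.smul_mk, smul_eq_mul]
      have h1 : (u.1 + t * -u.2) ^ 2 + (u.2 + t * u.1) ^ 2 = (1 + t ^ 2) * (u.1 ^ 2 + u.2 ^ 2) := by
        ring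
      rw [h1]
      refine mul_le_mul_of_nonneg_right ?_ (by positivity)
      have h2 : t ^ 2 = ‖t‖ ^ 2 := by rw [Real.norm_eq_abs, sq_abs]
      rw [h2]
      have h3 := norm_nonneg t
      nlinarith [mul_nonneg h3 hc.le, mul_nonneg h3 (sub_nonneg.2 ht)]
    exact (abs_le_of_sq_le_sq' h (mul_nonneg (by positivity) (euNorm_nonneg u))).2
  contr u := by
    unfold f1
    simp [add_comm]
  u0 := by
    change euNorm (0, 1) = 1
    unfold euNorm
    simp
  m0 := by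
    change euNorm (-1, 0) = 1
    unfold euNorm
    simp
  m1 := by
    unfold f1
    simp

end eucl

/-- The answer for both scalar fields, and a real space with `0 = n(X_U) < n(X)`. -/
theorem result :
    (∀ (𝕜 : Type) [RCLike 𝕜], ∃ (X : Type) (_ : NormedAddCommGroup X) (_ : NormedSpace 𝕜 X)
      (_ : CompleteSpace X), 25 / 36 ≤ numIndex 𝕜 X ∧
        ∀ U : Ultrafilter ℕ, (U : Filter ℕ) ≤ Filter.cofinite →
          numIndex 𝕜 (Ultrapower 𝕜 X U) ≤ 24 / 36) ∧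
    (∃ (X : Type) (_ : NormedAddCommGroup X) (_ : NormedSpace ℝ X)
      (_ : CompleteSpace X), 1 / 2 ≤ numIndex ℝ X ∧
        ∀ U : Ultrafilter ℕ, (U : Filter ℕ) ≤ Filter.cofinite →
          numIndex ℝ (Ultrapower ℝ X U) = 0) := by
  refine ⟨fun 𝕜 _ => ⟨XS (hexFib 𝕜), inferInstance, inferInstance, inferInstance, ?_, ?_⟩,
    ⟨XS euFib, inferInstance, inferInstance, inferInstance, ?_, ?_⟩⟩
  · refine le_trans (le_of_eq ?_) (le_index (F := hexFib 𝕜))
    change (25 / 36 : ℝ) = (((6 / 5 : ℝ)) ^ 2)⁻¹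
    norm_num
  · intro U hU
    refine (index_le (hexOp 𝕜) U hU).trans (le_of_eq ?_)
    change (2 / 3 : ℝ) = 24 / 36
    norm_num
  · refine le_trans (le_of_eq ?_) (le_index (F := euFib))
    change (1 / 2 : ℝ) = ((√2) ^ 2)⁻¹
    rw [Real.sq_sqrt (by norm_num)]
    norm_num
  · intro U hU
    apply le_antisymm
    · refine le_of_forall_pos_le_add fun c hc => ?_
      rw [zero_add]
      exact index_le (euOp c hc) U hU
    · exact Real.iInf_nonneg fun T => numRadius_nonneg T.1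

end Pool.Agent.Results.MP_6da9ed_an.UltrapowerIndexDrops
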